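import Pool.Agent.H65.Flat.Geo

/-! # Basic algebra of Fermi charts and deck transformations in `Geo` (helper54) -/

namespace H54.Flat

open MeasureTheory Set Filter H65.Flat
open scoped ENNReal Topology UpperHalfPlane MatrixGroups

theorem rot_rot (a b : ℝ) (v : T) : rot a (rot b v) = rot (b + a) v := by
  unfold rot; simp only [Prod.mk.injEq, true_and]; ring

theorem rot_zero (v : T) : rot 0 v = v := by
  unfold rot; simp

theorem base_rot (a : ℝ) (v : T) : base (rot a v) = base v := rfl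

theorem rot_cont : Continuous fun p : ℝ × T => rot p.1 p.2 := by
  unfold rot; fun_prop

theorem base_cont : Continuous base := by
  unfold base
  rw [UpperHalfPlane.isEmbedding_coe.continuous_iff]
  have : (UpperHalfPlane.coe ∘ fun v : T => (⟨⟨v.1, Real.exp v.2.1⟩, Real.exp_pos _⟩ : ℍ))
      = fun v : T => ((v.1 : ℂ) + (Real.exp v.2.1 : ℂ) * Complex.I) := by
    funext v
    apply Complex.ext
    · simp
    · simp [Complex.exp_ofReal_re]
  rw [this]
  fun_prop

/-- a right inverse of `base` -/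
noncomputable def lift (z : ℍ) : T := (z.re, Real.log z.im, 0)

theorem base_lift (z : ℍ) : base (lift z) = z := by
  unfold base lift
  apply UpperHalfPlane.ext
  apply Complex.ext
  · rfl
  · exact Real.exp_log z.im_pos

theorem lift_cont : Continuous lift := by
  unfold lift
  refine UpperHalfPlane.continuous_re.prodMk (Continuous.prodMk ?_ continuous_const)
  exact UpperHalfPlane.continuous_im.log fun z => z.im_pos.ne'

theorem rot_eq_lift (v : T) : rot (-v.2.2) v = lift (base v) := by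
  unfold rot lift base
  simp only [Prod.mk.injEq]
  refine ⟨rfl, ?_, by ring⟩
  exact (Real.log_exp _).symm

variable (G : Geo)

theorem Psi_zero (v : T) (φ : ℝ) : Psi G.Φ v (0, 0, φ) = rot φ v := by
  unfold Psi
  simp only [G.flow_zero, rot_rot]
  congr 1; ring

theorem Psi_flow (a : ℝ) (u : T) (t y φ : ℝ) :
    Psi G.Φ (G.Φ a u) (t, y, φ) = Psi G.Φ u (t + a, y, φ) := by
  unfold Psi
  simp only [G.flow_add]

theorem Psi_Λ {τ : Equiv.Perm T} (hτ : τ ∈ G.Λ) (u p : T) :
    Psi G.Φ (τ u) p = τ (Psi G.Φ u p) := by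
  unfold Psi
  rw [G.Λ_flow τ hτ, G.Λ_rot τ hτ, G.Λ_flow τ hτ, G.Λ_rot τ hτ]

theorem Psi_rot (u : T) (t y φ a : ℝ) :
    rot a (Psi G.Φ u (t, y, φ)) = Psi G.Φ u (t, y, φ + a) := by
  unfold Psi
  simp only [rot_rot]
  congr 1; ring

theorem Psi_inj {u p q : T} (h : Psi G.Φ u p = Psi G.Φ u q) : p = q := by
  rw [← G.inv_left u p, h, G.inv_left]

theorem K_Psi (u : T) (t y φ : ℝ) : G.K (Psi G.Φ u (t, y, φ)) = G.Kc u t y := by
  unfold Geo.Kc
  have : Psi G.Φ u (t, y, φ) = rot φ (Psi G.Φ u (t, y, 0)) := by rw [Psi_rot]; simp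
  rw [this, G.K_rot]

theorem base_Psi (u : T) (t y φ : ℝ) :
    base (Psi G.Φ u (t, y, φ)) = base (Psi G.Φ u (t, y, 0)) := by
  have : Psi G.Φ u (t, y, φ) = rot φ (Psi G.Φ u (t, y, 0)) := by rw [Psi_rot]; simp
  rw [this, base_rot]

theorem K_line (u : T) (t y : ℝ) :
    G.K (G.Φ y (rot (Real.pi / 2) (G.Φ t u))) = G.Kc u t y := by
  unfold Geo.Kc Psi
  rw [G.K_rot]

theorem Kc_Λ {τ : Equiv.Perm T} (hτ : τ ∈ G.Λ) (u : T) (t y : ℝ) :
    G.Kc (τ u) t y = G.Kc u t y := by
  unfold Geo.Kc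
  rw [Psi_Λ G hτ, G.Λ_K τ hτ]

theorem inv_Λ {τ : Equiv.Perm T} (hτ : τ ∈ G.Λ) (v v' : T) :
    G.inv (τ v) (τ v') = G.inv v v' := by
  have : Psi G.Φ (τ v) (G.inv v v') = τ v' := by rw [Psi_Λ G hτ, G.inv_right]
  rw [← this, G.inv_left]

theorem inv_rot (v v' : T) (a : ℝ) :
    G.inv v (rot a v') = ((G.inv v v').1, (G.inv v v').2.1, (G.inv v v').2.2 + a) := by
  have h := G.inv_right v v'
  have : Psi G.Φ v ((G.inv v v').1, (G.inv v v').2.1, (G.inv v v').2.2 + a) = rot a v' := by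
    rw [← Psi_rot, h]
  rw [← this, G.inv_left]

theorem inv_flow (u : T) (s : ℝ) (v' : T) :
    G.inv (G.Φ s u) v' = ((G.inv u v').1 - s, (G.inv u v').2.1, (G.inv u v').2.2) := by
  have : Psi G.Φ (G.Φ s u) ((G.inv u v').1 - s, (G.inv u v').2.1, (G.inv u v').2.2) = v' := by
    rw [Psi_flow, sub_add_cancel, G.inv_right]
  conv_lhs => rw [← this]
  rw [G.inv_left]

theorem Psi_cont : Continuous fun q : T × T => Psi G.Φ q.1 q.2 := by
  unfold Psi
  have h1 : Continuous fun q : T × T => G.Φ q.2.1 q.1 :=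
    G.flow_cont.comp (by fun_prop : Continuous fun q : T × T => ((q.2.1, q.1) : ℝ × T))
  have h2 : Continuous fun q : T × T => rot (Real.pi / 2) (G.Φ q.2.1 q.1) :=
    rot_cont.comp (continuous_const.prodMk h1)
  have h3 : Continuous fun q : T × T => G.Φ q.2.2.1 (rot (Real.pi / 2) (G.Φ q.2.1 q.1)) :=
    G.flow_cont.comp ((by fun_prop : Continuous fun q : T × T => q.2.2.1).prodMk h2)
  exact rot_cont.comp ((by fun_prop : Continuous fun q : T × T =>
    q.2.2.2 - Real.pi / 2).prodMk h3)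

theorem inv_cont_right (u : T) : Continuous (G.inv u) :=
  G.inv_cont.comp (continuous_const.prodMk continuous_id)

/-- `Psi` images are preimages under `inv` -/
theorem image_Psi (u : T) (A : Set T) : Psi G.Φ u '' A = G.inv u ⁻¹' A := by
  ext v
  constructor
  · rintro ⟨p, hp, rfl⟩
    simpa [G.inv_left] using hp
  · intro hv
    exact ⟨G.inv u v, hv, G.inv_right u v⟩

theorem flow_rot2pi (k : ℤ) (t : ℝ) (v : T) :
    G.Φ t (rot (2 * Real.pi * k) v) = rot (2 * Real.pi * k) (G.Φ t v) := by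
  obtain ⟨τ, hτ, h⟩ := G.Λ_rot2pi k
  rw [← h, G.Λ_flow τ hτ, h]

/-- distance of base points is invariant -/
theorem dist_base_Λ {τ : Equiv.Perm T} (hτ : τ ∈ G.Λ) (v v' : T) :
    dist (base (τ v)) (base (τ v')) = dist (base v) (base v') := by
  obtain ⟨g, -, hg⟩ := G.Λ_base τ hτ
  rw [hg, hg, dist_smul]

/-- an element of `Λ` fixing a base point acts trivially on base points -/
theorem base_fix {τ : Equiv.Perm T} (hτ : τ ∈ G.Λ) {v : T} (hv : base (τ v) = base v) (v' : T) :
    base (τ v') = base v' := by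
  obtain ⟨k, hk⟩ := G.Λ_triv τ hτ ⟨v, hv⟩
  rw [hk, base_rot]


/-- bounded displacement of the flow for bounded time -/
theorem flow_disp (S : ℝ) : ∃ L : ℝ, ∀ v s, |s| ≤ S → dist (base v) (base (G.Φ s v)) ≤ L := by
  obtain ⟨C, hC, hCc⟩ := G.Λ_cocompact
  have hcont : Continuous fun q : T × ℝ => dist (base q.1) (base (G.Φ q.2 q.1)) := by
    refine Continuous.dist (base_cont.comp continuous_fst) (base_cont.comp ?_)
    exact G.flow_cont.comp (continuous_snd.prodMk continuous_fst)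
  obtain ⟨L, hL⟩ := (hC.prod (isCompact_Icc (a := -S) (b := S))).exists_bound_of_continuousOn
    hcont.continuousOn
  refine ⟨L, fun v s hs => ?_⟩
  obtain ⟨τ, hτ, hτv⟩ := hCc v
  have := hL (τ v, s) ⟨hτv, abs_le.mp hs⟩
  simp only [G.Λ_flow τ hτ, dist_base_Λ G hτ] at this
  rwa [Real.norm_of_nonneg dist_nonneg] at this

/-- uniform closeness of nearby chart points -/
theorem chart_close (ε : ℝ) (hε : 0 < ε) : ∃ δ > 0, ∀ v t y, |t| ≤ δ → |y| ≤ δ →
    dist (base (Psi G.Φ v (t, y, 0))) (base v) ≤ ε := by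
  obtain ⟨C, hC, hCc⟩ := G.Λ_cocompact
  let f : (ℝ × ℝ) → T → ℝ := fun q v => dist (base (Psi G.Φ v (q.1, q.2, 0))) (base v)
  have hcont : Continuous fun q : (ℝ × ℝ) × T => f q.1 q.2 := by
    refine Continuous.dist (base_cont.comp ?_) (base_cont.comp continuous_snd)
    exact (Psi_cont G).comp (by fun_prop : Continuous fun q : (ℝ × ℝ) × T =>
      ((q.2, (q.1.1, q.1.2, 0)) : T × T))
  have hev : ∀ᶠ q : ℝ × ℝ in 𝓝 (0, 0), ∀ v ∈ C, f q v < ε := by
    refine hC.eventually_forall_of_forall_eventually fun v _ => ?_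
    have h0 : f (0, 0) v = 0 := by
      simp only [f, Psi_zero, base_rot, dist_self]
    have : f (0, 0) v < ε := by rw [h0]; exact hε
    exact hcont.continuousAt.eventually_lt continuousAt_const this
  obtain ⟨δ, hδ, hball⟩ := Metric.eventually_nhds_iff.mp hev
  refine ⟨δ / 2, by positivity, fun v t y ht hy => ?_⟩
  obtain ⟨τ, hτ, hτv⟩ := hCc v
  have hd : dist ((t, y) : ℝ × ℝ) (0, 0) < δ := by
    rw [Prod.dist_eq]
    simp only [Real.dist_eq, sub_zero]
    have := max_le ht hy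
    linarith
  have := hball hd (τ v) hτv
  simp only [f, Psi_Λ G hτ, dist_base_Λ G hτ] at this
  exact this.le

/-- the `y`-coordinate of a point at bounded distance is bounded -/
theorem y_bound (L : ℝ) : ∃ B : ℝ, ∀ v v', dist (base v) (base v') ≤ L →
    |(G.inv v v').2.1| ≤ B := by
  obtain ⟨C, hC, hCc⟩ := G.Λ_cocompact
  obtain ⟨R, hR⟩ := (hC.image base_cont).isBounded.subset_closedBall (UpperHalfPlane.I)
  have hK : IsCompact (lift '' Metric.closedBall UpperHalfPlane.I (R + L)) :=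
    (isCompact_closedBall _ _).image lift_cont
  have hcont : Continuous fun q : T × T => (G.inv q.1 q.2).2.1 := by
    have := G.inv_cont
    fun_prop
  obtain ⟨B, hB⟩ := (hC.prod hK).exists_bound_of_continuousOn hcont.continuousOn
  refine ⟨B, fun v v' hvv => ?_⟩
  obtain ⟨τ, hτ, hτv⟩ := hCc v
  have h1 : base (τ v) ∈ Metric.closedBall UpperHalfPlane.I R := hR ⟨_, hτv, rfl⟩
  have h2 : dist (base (τ v)) (base (τ v')) ≤ L := by rw [dist_base_Λ G hτ]; exact hvv
  have h3 : lift (base (τ v')) ∈ lift '' Metric.closedBall UpperHalfPlane.I (R + L) := by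
    refine ⟨_, ?_, rfl⟩
    rw [Metric.mem_closedBall] at h1 ⊢
    rw [dist_comm] at h2
    linarith [dist_triangle (base (τ v')) (base (τ v)) UpperHalfPlane.I]
  have := hB (τ v, lift (base (τ v'))) ⟨hτv, h3⟩
  rw [← rot_eq_lift] at this
  simp only [inv_rot, inv_Λ G hτ, Real.norm_eq_abs] at this
  exact this

end H54.Flat
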