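import Pool.Agent.H54.Flat.Track
import Pool.Agent.H79.Flat.Par

/-! # A deck transformation moving a line by a bounded amount (helper54) -/

namespace H54.Flat

open MeasureTheory Set Filter H65.Flat
open scoped ENNReal Topology UpperHalfPlane MatrixGroups

variable (G : Geo)

/-- If a deck transformation acting freely on base points moves the line of `u` by a bounded
amount, then the line of `u` is closed. -/
theorem per_of_bounded {u : T} {τ : Equiv.Perm T} (hτ : τ ∈ G.Λ)
    (hne : ∀ v, base (τ v) ≠ base v) {L : ℝ}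
    (hL : ∀ s, dist (base (G.Φ s u)) (base (τ (G.Φ s u))) ≤ L) : G.Per u := by
  obtain ⟨B, hB⟩ := y_bound G L
  obtain ⟨t, y, φ, ht0, hy0, hφ0, hsol, hall⟩ := G.chart_sol u (G.inv u (τ u))
  rw [G.inv_right] at hall
  have hΦτ : ∀ s, τ (G.Φ s u) = Psi G.Φ u (t s, y s, φ s) := fun s => by
    rw [← G.Λ_flow τ hτ, hall]
  have hyB : ∀ s, |y s| ≤ B := by
    intro s
    have h1 := hB _ _ (hL s)
    rw [inv_flow, hΦτ, G.inv_left] at h1
    exact h1
  obtain ⟨hpar, hstrip⟩ := H79.Flat.parallel_of_bounded G u t y φ hsol B hyB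
  obtain ⟨k, hk⟩ := Real.sin_eq_zero_iff.mp (hpar 0).1
  rcases Int.even_or_odd' k with ⟨j, rfl | rfl⟩
  · -- orientation preserved
    have hφ : φ 0 = 2 * Real.pi * j := by rw [← hk]; push_cast; ring
    have hcos : Real.cos (φ 0) = 1 := by
      rw [hφ, show 2 * Real.pi * (j : ℝ) = j * (2 * Real.pi) by ring, Real.cos_int_mul_two_pi]
    have E : ∀ s, τ (G.Φ s u) = Psi G.Φ u (t 0 + s, y 0, 2 * Real.pi * j) := by
      intro s
      obtain ⟨-, h2, h3, h4⟩ := hpar s
      rw [hΦτ, h2, h3, h4, hcos, hφ, mul_one]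
    have F : ∀ t' y' φ', τ (Psi G.Φ u (t', y', φ')) =
        Psi G.Φ u (t 0 + t', y 0 + y', φ' + 2 * Real.pi * j) := by
      intro t' y' φ'
      rw [← Psi_Λ G hτ]
      have h1 : rot (Real.pi / 2) (G.Φ t' (τ u)) =
          rot (2 * Real.pi * j) (G.Φ (y 0) (rot (Real.pi / 2) (G.Φ (t 0 + t') u))) := by
        rw [G.Λ_flow τ hτ, E, Psi]
        simp only [rot_rot]
        congr 1; ring
      rw [Psi, h1]
      simp only [flow_rot2pi, ← G.flow_add, rot_rot]
      rw [Psi]
      simp only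
      rw [add_comm y' (y 0)]
      congr 1; ring
    have hK : ∀ t' y', G.Kc u t' y' = G.Kc u (t 0 + t') (y 0 + y') := by
      intro t' y'
      have h1 := G.Λ_K τ hτ (Psi G.Φ u (t', y', 0))
      rw [F, K_Psi, K_Psi] at h1
      exact h1.symm
    have hKm : ∀ m : ℤ, ∀ t' y', G.Kc u t' y' = G.Kc u (t' + m * t 0) (y' + m * y 0) := by
      intro m
      induction m using Int.induction_on with
      | zero => intro t' y'; simp
      | succ m ih =>
        intro t' y'
        rw [ih, hK]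
        congr 1 <;> push_cast <;> ring
      | pred m ih =>
        intro t' y'
        rw [ih, hK (t' + ((-(m : ℤ) - 1 : ℤ) : ℝ) * t 0)]
        congr 1 <;> push_cast <;> ring
    have hy00 : y 0 = 0 := by
      by_contra hyne
      obtain ⟨v, hv⟩ := G.K_ne
      apply hv
      have h1 : G.K v = G.Kc u (G.inv u v).1 (G.inv u v).2.1 := by
        rw [← K_Psi G u _ _ (G.inv u v).2.2]
        exact congrArg G.K (G.inv_right u v).symm
      rw [h1, hKm (-⌊(G.inv u v).2.1 / y 0⌋)]
      apply hstrip hyne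
      have h2 : (G.inv u v).2.1 + ((-⌊(G.inv u v).2.1 / y 0⌋ : ℤ) : ℝ) * y 0
          = y 0 * Int.fract ((G.inv u v).2.1 / y 0) := by
        rw [Int.fract, mul_sub, mul_div_cancel₀ _ hyne]
        push_cast; ring
      rw [h2]
      have h3 := Int.fract_nonneg ((G.inv u v).2.1 / y 0)
      have h4 := (Int.fract_lt_one ((G.inv u v).2.1 / y 0)).le
      rw [mem_uIcc]
      rcases le_total 0 (y 0) with h | h
      · left; exact ⟨mul_nonneg h h3, by nlinarith⟩
      · right; exact ⟨by nlinarith, mul_nonpos_of_nonpos_of_nonneg h h3⟩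
    have hτu : τ u = rot (2 * Real.pi * j) (G.Φ (t 0) u) := by
      have h1 := E 0
      rw [G.flow_zero, hy00] at h1
      rw [h1, ← Psi_zero, Psi_flow]
      congr 2; ring
    obtain ⟨σ, hσ, hσv⟩ := G.Λ_rot2pi (-j)
    refine ⟨σ * τ, mul_mem hσ hτ, t 0, ?_, ?_⟩
    · intro ht
      apply hne u
      rw [hτu, ht, G.flow_zero, base_rot]
    · rw [Equiv.Perm.mul_apply, hτu, hσv, rot_rot]
      push_cast
      rw [show 2 * Real.pi * (j : ℝ) + 2 * Real.pi * -(j : ℝ) = 0 by ring, rot_zero]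
  · -- orientation reversed: a fixed base point
    exfalso
    have hφ : φ 0 = 2 * Real.pi * j + Real.pi := by rw [← hk]; push_cast; ring
    have hcos : Real.cos (φ 0) = -1 := by
      rw [hφ, Real.cos_add_pi, show 2 * Real.pi * (j : ℝ) = j * (2 * Real.pi) by ring,
        Real.cos_int_mul_two_pi]
    have E : ∀ s, τ (G.Φ s u) = Psi G.Φ u (t 0 - s, y 0, 2 * Real.pi * j + Real.pi) := by
      intro s
      obtain ⟨-, h2, h3, h4⟩ := hpar s
      rw [hΦτ, h2, h3, h4, hcos, hφ]
      congr 2; ring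
    apply hne (Psi G.Φ u (t 0 / 2, y 0 / 2, 0))
    rw [← Psi_Λ G hτ]
    have h1 : rot (Real.pi / 2) (G.Φ (t 0 / 2) (τ u)) =
        rot (2 * Real.pi * j) (rot Real.pi (G.Φ (y 0) (rot (Real.pi / 2) (G.Φ (t 0 / 2) u)))) := by
      rw [G.Λ_flow τ hτ, E, Psi]
      simp only [rot_rot]
      rw [show t 0 - t 0 / 2 = t 0 / 2 by ring]
      congr 1; ring
    rw [Psi, h1]
    simp only [flow_rot2pi, G.flow_rev, base_rot]
    rw [← G.flow_add, Psi, base_rot]
    simp only
    rw [show -(y 0 / 2) + y 0 = y 0 / 2 by ring]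

end H54.Flat
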