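import Pool.Agent.H54.Flat.Overlap
import Pool.Agent.H65.Flat.Tubes

/-! # Step 5: lower bound for `Z` along non-closed infinitely flat lines (helper54) -/

namespace H54.Flat

open MeasureTheory Set Filter H65.Flat
open scoped ENNReal Topology UpperHalfPlane MatrixGroups

variable (G : Geo)

/-- the functional `Z(n) = ∫_{T/Λ} w(u;n)^20 dμ` -/
noncomputable def Z (n : ℝ) : ℝ≥0∞ := ∫⁻ v in G.D, ENNReal.ofReal (G.w n v ^ 20) ∂G.μ

theorem pbox_open (a n r : ℝ) : IsOpen (pbox a n r) :=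
  isOpen_Ioo.prod (isOpen_Ioo.prod isOpen_Ioo)

theorem volume_pbox {a n r : ℝ} (hn : 0 < n) (hr : 0 < r) :
    volume (pbox a n r) = ENNReal.ofReal ((r / 8) ^ 2) := by
  have h1 : volume (pbox a n r) = volume (Ioo a (a + n / 4)) *
      (volume (Ioo (-(r / 8)) (r / 8)) * volume (Ioo (-(r / 8 / n)) (r / 8 / n))) := by
    unfold pbox
    rw [Measure.volume_eq_prod, Measure.prod_prod, Measure.volume_eq_prod, Measure.prod_prod]
  rw [h1, Real.volume_Ioo, Real.volume_Ioo, Real.volume_Ioo, ← ENNReal.ofReal_mul (by linarith),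
    ← ENNReal.ofReal_mul (by linarith)]
  congr 1
  field_simp
  ring

/-- lower bound for `Z` if the strip injects -/
theorem Z_of_disjoint {u : T} {n r : ℝ} (P : Par G u n r) {n0 : ℝ} (hn0 : n0 ≤ n)
    (hwm : ∀ n ≥ n0, Measurable (G.w n)) (hwΛ : ∀ τ ∈ G.Λ, ∀ n u, G.w n (τ u) = G.w n u)
    (hw : ∀ n ≥ n0, ∀ u r, 0 ≤ r → G.Tube u n r → r ≤ G.w n u) {a : ℝ}
    (hdisj : ∀ τ ∈ G.Λ, τ ≠ 1 → Disjoint (τ '' box G u a n r) (box G u a n r)) :
    ENNReal.ofReal ((r / 2) ^ 20 * (r / 8) ^ 2) ≤ Z G n := by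
  have hr := P.r_pos
  have hn : 0 < n := by linarith [P.n_ge]
  have hopen : IsOpen (box G u a n r) := by
    rw [box, image_Psi]
    exact (pbox_open a n r).preimage (inv_cont_right G u)
  have hY : ENNReal.ofReal ((r / 8) ^ 2) ≤ G.μ (box G u a n r) := by
    rw [← volume_pbox (a := a) hn hr]
    exact G.vol_chart u _ (pbox_open a n r)
  have hM := G.M_lower (box G u a n r) (fun v => ENNReal.ofReal (G.w n v ^ 20))
    (ENNReal.ofReal ((r / 2) ^ 20)) hopen.measurableSet hdisj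
    (((hwm n hn0).pow_const 20).ennreal_ofReal) (fun τ hτ v => by rw [hwΛ τ hτ]) (by
      rintro v ⟨p, hp, rfl⟩
      simp only [pbox, mem_prod, mem_Ioo] at hp
      apply ENNReal.ofReal_le_ofReal
      refine pow_le_pow_left₀ (by positivity) ?_ 20
      exact hw n hn0 _ _ (by positivity) (tube_box G P (abs_le.mpr ⟨hp.2.1.1.le, hp.2.1.2.le⟩)
        (abs_le.mpr ⟨hp.2.2.1.le, hp.2.2.2.le⟩)))
  calc ENNReal.ofReal ((r / 2) ^ 20 * (r / 8) ^ 2)
      = ENNReal.ofReal ((r / 2) ^ 20) * ENNReal.ofReal ((r / 8) ^ 2) :=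
        ENNReal.ofReal_mul (by positivity)
    _ ≤ ENNReal.ofReal ((r / 2) ^ 20) * G.μ (box G u a n r) := by gcongr
    _ ≤ Z G n := hM

/-- choice of the width -/
theorem exists_par {u : T} (h : G.InfFlat u) {ε : ℝ} (hε : 0 < ε) :
    ∃ c0 > 0, c0 ≤ 1 ∧ ∀ n : ℝ, 4 ≤ n → Par G u n (c0 * n ^ (-(ε / 22))) := by
  obtain ⟨C, hC⟩ := h (⌈66 / ε⌉₊)
  set Q := ⌈66 / ε⌉₊ with hQ
  have hQ66 : 66 / ε ≤ Q := Nat.le_ceil _
  have hQ1 : 1 ≤ Q := by
    rw [hQ, Nat.one_le_iff_ne_zero, Ne, Nat.ceil_eq_zero, not_le]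
    positivity
  set C' : ℝ := max C 1 with hC'
  have hC'1 : 1 ≤ C' := le_max_right _ _
  set c0 : ℝ := 1 / (2 * C') with hc0
  have hc0pos : 0 < c0 := by positivity
  have hc01 : c0 ≤ 1 := by
    rw [hc0, div_le_one (by positivity)]; linarith
  refine ⟨c0, hc0pos, hc01, fun n hn => ?_⟩
  have hn0 : (0 : ℝ) < n := by linarith
  have hnp : 0 < n ^ (-(ε / 22)) := Real.rpow_pos_of_pos hn0 _
  have hnp1 : n ^ (-(ε / 22)) ≤ 1 := by
    apply Real.rpow_le_one_of_one_le_of_nonpos (by linarith)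
    linarith [show 0 < ε / 22 by positivity]
  refine ⟨hn, by positivity, ?_, ?_⟩
  · calc c0 * n ^ (-(ε / 22)) ≤ 1 * 1 := mul_le_mul hc01 hnp1 hnp.le zero_le_one
      _ = 1 := one_mul 1
  · intro t y hy
    set r := c0 * n ^ (-(ε / 22)) with hr
    have hr0 : 0 < r := by positivity
    have hr1 : r ≤ 1 := by
      calc c0 * n ^ (-(ε / 22)) ≤ 1 * 1 := mul_le_mul hc01 hnp1 hnp.le zero_le_one
        _ = 1 := one_mul 1
    have h1 : |G.Kc u t y| ≤ C * |y| ^ Q := hC t y (hy.trans hr1)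
    have h2 : C * |y| ^ Q ≤ C' * r ^ Q := by
      calc C * |y| ^ Q ≤ C' * |y| ^ Q :=
            mul_le_mul_of_nonneg_right (le_max_left _ _) (by positivity)
        _ ≤ C' * r ^ Q := mul_le_mul_of_nonneg_left
            (pow_le_pow_left₀ (abs_nonneg _) hy Q) (by positivity)
    have h3 : r ^ Q ≤ c0 * (n ^ 3)⁻¹ := by
      rw [hr, mul_pow]
      have h4 : c0 ^ Q ≤ c0 := by
        calc c0 ^ Q ≤ c0 ^ 1 := pow_le_pow_of_le_one hc0pos.le hc01 hQ1
          _ = c0 := pow_one _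
      have h5 : (n ^ (-(ε / 22))) ^ Q ≤ (n ^ 3)⁻¹ := by
        rw [← Real.rpow_natCast (n ^ (-(ε / 22))) Q, ← Real.rpow_mul hn0.le,
          ← Real.rpow_natCast n 3, ← Real.rpow_neg hn0.le]
        apply Real.rpow_le_rpow_of_exponent_le (by linarith)
        have h6 : 66 ≤ Q * ε := by rwa [div_le_iff₀ hε] at hQ66
        push_cast
        nlinarith
      exact mul_le_mul h4 h5 (by positivity) hc0pos.le
    have h4 : C' * r ^ Q ≤ (2 * n ^ 3)⁻¹ := by
      calc C' * r ^ Q ≤ C' * (c0 * (n ^ 3)⁻¹) := mul_le_mul_of_nonneg_left h3 (by positivity)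
        _ = (2 * n ^ 3)⁻¹ := by rw [hc0]; field_simp
    linarith [neg_abs_le (G.Kc u t y)]

/-- Step 5, lower bound -/
theorem Z_lower {u : T} (h : G.InfFlat u) (hnp : ¬ G.Per u) (ε : ℝ) (hε : 0 < ε) :
    ∃ c > 0, ∃ n1 : ℝ, 1 ≤ n1 ∧ ∀ n ≥ n1, ENNReal.ofReal (c * n ^ (-ε)) ≤ Z G n := by
  obtain ⟨c0, hc0, hc01, hpar⟩ := exists_par G h hε
  obtain ⟨n0, -, hn01, -, -, -, hw, -, hwm, hwΛ, -, -⟩ := G.w_facts
  obtain ⟨ι, hι, hΓ⟩ := G.Γ_disp
  obtain ⟨δ, hδ0, hδ⟩ := chart_close G (ι / 16) (by positivity)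
  have hlim : Tendsto (fun n : ℝ => n ^ (-(ε / 22))) atTop (𝓝 0) :=
    tendsto_rpow_neg_atTop (by positivity)
  obtain ⟨n2, hn2⟩ := eventually_atTop.mp ((hlim.eventually_le_const hδ0))
  refine ⟨c0 ^ 22 / (2 ^ 20 * 8 ^ 2), by positivity, max 4 (max n0 n2),
    le_max_of_le_left (by norm_num), fun n hn => ?_⟩
  have hn4 : 4 ≤ n := (le_max_left _ _).trans hn
  have hn0' : n0 ≤ n := (le_max_left _ _).trans ((le_max_right _ _).trans hn)
  have hn2' : n2 ≤ n := (le_max_right _ _).trans ((le_max_right _ _).trans hn)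
  have hnpos : (0 : ℝ) < n := by linarith
  set r := c0 * n ^ (-(ε / 22)) with hr
  have P : Par G u n r := hpar n hn4
  have hrδ : r ≤ δ := by
    have h1 := hn2 n hn2'
    have h2 : 0 < n ^ (-(ε / 22)) := Real.rpow_pos_of_pos hnpos _
    calc r ≤ 1 * n ^ (-(ε / 22)) := mul_le_mul_of_nonneg_right hc01 h2.le
      _ ≤ δ := by rw [one_mul]; exact h1
  have hex : ∃ a : ℤ, ∀ τ ∈ G.Λ, τ ≠ 1 → Disjoint (τ '' box G u a n r) (box G u a n r) := by
    by_contra hcon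
    push Not at hcon
    exact hnp (per_of_overlap G P hι hΓ (by linarith) hδ hrδ hcon)
  obtain ⟨a, ha⟩ := hex
  have hZ := Z_of_disjoint G P hn0' hwm hwΛ hw ha
  refine le_trans (ENNReal.ofReal_le_ofReal (le_of_eq ?_)) hZ
  have h1 : r ^ 22 = c0 ^ 22 * n ^ (-ε) := by
    rw [hr, mul_pow, ← Real.rpow_natCast (n ^ (-(ε / 22))) 22, ← Real.rpow_mul hnpos.le]
    congr 2
    push_cast; ring
  calc c0 ^ 22 / (2 ^ 20 * 8 ^ 2) * n ^ (-ε) = (c0 ^ 22 * n ^ (-ε)) / (2 ^ 20 * 8 ^ 2) := by ring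
    _ = r ^ 22 / (2 ^ 20 * 8 ^ 2) := by rw [h1]
    _ = (r / 2) ^ 20 * (r / 8) ^ 2 := by ring

/-- Step 5 -/
theorem per_of_infFlat {u : T} (h : G.InfFlat u) : G.Per u := by
  by_contra hnp
  set ε : ℝ := Real.logb (10 ^ 4) 1.0005 with hε
  have hε0 : 0 < ε := Real.logb_pos (by norm_num) (by norm_num)
  have hεp : ((10 : ℝ) ^ 4) ^ ε = 1.0005 :=
    Real.rpow_logb (by norm_num) (by norm_num) (by norm_num)
  obtain ⟨c, hc, n1, hn1, hlow⟩ := Z_lower G h hnp ε hε0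
  obtain ⟨n2, hn2, hdec⟩ : ∃ n0 : ℝ, 1 ≤ n0 ∧ ∀ m ≥ n0,
      Z G (10 ^ 4 * m) ≤ ENNReal.ofReal 0.999 * Z G m := G.Z_decay_aux
  obtain ⟨n0, D, hn0, hD, hwD, -⟩ := G.w_facts
  set m := max n0 (max n1 n2) with hm
  have hm0 : n0 ≤ m := le_max_left _ _
  have hm1 : n1 ≤ m := (le_max_left _ _).trans (le_max_right _ _)
  have hm2 : n2 ≤ m := (le_max_right _ _).trans (le_max_right _ _)
  have hmpos : 0 < m := by linarith
  have hge : ∀ k : ℕ, m ≤ (10 ^ 4) ^ k * m := fun k => by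
    have : (1 : ℝ) ≤ (10 ^ 4) ^ k := one_le_pow₀ (by norm_num)
    nlinarith
  have hup : ∀ k : ℕ, Z G ((10 ^ 4) ^ k * m) ≤ ENNReal.ofReal (0.999 ^ k) * Z G m := by
    intro k
    induction k with
    | zero => simp
    | succ k ih =>
      have h1 := hdec ((10 ^ 4) ^ k * m) (hm2.trans (hge k))
      rw [show (10 : ℝ) ^ 4 * ((10 ^ 4) ^ k * m) = (10 ^ 4) ^ (k + 1) * m by ring] at h1
      calc _ ≤ _ := h1
        _ ≤ ENNReal.ofReal 0.999 * (ENNReal.ofReal (0.999 ^ k) * Z G m) := by gcongr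
        _ = _ := by
          rw [← mul_assoc, ← ENNReal.ofReal_mul (by norm_num), pow_succ, mul_comm (0.999 : ℝ)]
  have hfin : Z G m < ⊤ := by
    have h1 : Z G m ≤ ENNReal.ofReal (D ^ 20) * G.μ G.D := by
      unfold Z
      calc _ ≤ ∫⁻ _ in G.D, ENNReal.ofReal (D ^ 20) ∂G.μ := by
            apply lintegral_mono
            intro v
            apply ENNReal.ofReal_le_ofReal
            exact pow_le_pow_left₀ (G.w_nonneg m v) (hwD m hm0 v) 20
        _ = _ := by rw [setLIntegral_const]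
    exact h1.trans_lt (ENNReal.mul_lt_top ENNReal.ofReal_lt_top G.D_fin)
  have hmain : ∀ k : ℕ, c * m ^ (-ε) ≤ (0.999 * 1.0005) ^ k * (Z G m).toReal := by
    intro k
    have h1 := (hlow ((10 ^ 4) ^ k * m) (hm1.trans (hge k))).trans (hup k)
    have h2 := ENNReal.toReal_mono (ENNReal.mul_ne_top ENNReal.ofReal_ne_top hfin.ne) h1
    have hpow : ((10 ^ 4) ^ k * m) ^ (-ε) = (1.0005 ^ k)⁻¹ * m ^ (-ε) := by
      rw [Real.mul_rpow (by positivity) hmpos.le, Real.rpow_neg (by positivity)]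
      congr 2
      rw [← Real.rpow_natCast ((10 : ℝ) ^ 4) k, ← Real.rpow_mul (by positivity), mul_comm,
        Real.rpow_mul (by positivity), hεp, Real.rpow_natCast]
    rw [ENNReal.toReal_ofReal (by positivity), ENNReal.toReal_mul,
      ENNReal.toReal_ofReal (by positivity), hpow] at h2
    have h3 : c * m ^ (-ε) = 1.0005 ^ k * (c * ((1.0005 ^ k)⁻¹ * m ^ (-ε))) := by
      field_simp
    rw [h3, mul_pow]
    calc _ ≤ 1.0005 ^ k * (0.999 ^ k * (Z G m).toReal) := by gcongr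
      _ = _ := by ring
  have hlim : Tendsto (fun k : ℕ => ((0.999 * 1.0005 : ℝ)) ^ k * (Z G m).toReal) atTop (𝓝 0) := by
    have := (tendsto_pow_atTop_nhds_zero_of_lt_one (r := (0.999 * 1.0005 : ℝ)) (by norm_num)
      (by norm_num)).mul_const (Z G m).toReal
    simpa using this
  have hle := ge_of_tendsto' hlim hmain
  have : 0 < c * m ^ (-ε) := mul_pos hc (Real.rpow_pos_of_pos hmpos _)
  linarith

end H54.Flat
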