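import Pool.Agent.H54.Flat.Line
import Pool.Agent.H65.Flat.Axis

/-! # Overlapping strips force a closed line (helper54) -/

namespace H54.Flat

open MeasureTheory Set Filter H65.Flat
open scoped ENNReal Topology UpperHalfPlane MatrixGroups

variable (G : Geo)

/-- the parameter box -/
def pbox (a n r : ℝ) : Set T :=
  Ioo a (a + n / 4) ×ˢ Ioo (-(r / 8)) (r / 8) ×ˢ Ioo (-(r / 8 / n)) (r / 8 / n)

/-- its image -/
def box (u : T) (a n r : ℝ) : Set T := Psi G.Φ u '' pbox a n r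

theorem orbit_close {u : T} {n r : ℝ} (P : Par G u n r) {ε δ : ℝ}
    (hδ : ∀ v t y, |t| ≤ δ → |y| ≤ δ → dist (base (Psi G.Φ v (t, y, 0))) (base v) ≤ ε)
    (hr : r ≤ δ) {p : T} (hy : |p.2.1| ≤ r / 8) (hφ : |p.2.2| ≤ r / 8 / n) {s : ℝ}
    (hs : |s| ≤ n) : dist (base (G.Φ s (Psi G.Φ u p))) (base (G.Φ (p.1 + s) u)) ≤ ε := by
  obtain ⟨t, y, φ, -, hall, hb⟩ := chart_track G P hy hφ
  rw [hall, base_Psi]
  have h1 : Psi G.Φ u (t s, y s, 0) = Psi G.Φ (G.Φ (p.1 + s) u) (t s - (p.1 + s), y s, 0) := by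
    rw [Psi_flow]; congr 2; ring
  rw [h1]
  obtain ⟨h2, h3⟩ := hb s hs
  have hr0 := P.r_pos
  refine hδ _ _ _ ?_ ?_
  · rw [show t s - (p.1 + s) = t s - p.1 - s by ring]; linarith
  · linarith

theorem overlap_close {u : T} {n r : ℝ} (P : Par G u n r) {ε δ : ℝ}
    (hδ : ∀ v t y, |t| ≤ δ → |y| ≤ δ → dist (base (Psi G.Φ v (t, y, 0))) (base v) ≤ ε)
    (hr : r ≤ δ) {a : ℝ} {τ : Equiv.Perm T} (hτ : τ ∈ G.Λ) (hτ1 : τ ≠ 1)
    (hov : ¬ Disjoint (τ '' box G u a n r) (box G u a n r)) :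
    (∀ v, base (τ v) ≠ base v) ∧ ∃ t1 s : ℝ, a < t1 ∧ t1 < a + n / 4 ∧ |s| ≤ n / 4 ∧
      ∀ x, |x - t1| ≤ n → dist (base (τ (G.Φ x u))) (base (G.Φ (x + s) u)) ≤ 2 * ε := by
  rw [Set.not_disjoint_iff] at hov
  obtain ⟨w, ⟨v, ⟨p, hp, rfl⟩, hvw⟩, ⟨q, hq, hqw⟩⟩ := hov
  simp only [pbox, mem_prod, mem_Ioo] at hp hq
  obtain ⟨⟨hp1, hp2⟩, ⟨hp3, hp4⟩, ⟨hp5, hp6⟩⟩ := hp
  obtain ⟨⟨hq1, hq2⟩, ⟨hq3, hq4⟩, ⟨hq5, hq6⟩⟩ := hq
  have hpq : τ (Psi G.Φ u p) = Psi G.Φ u q := by rw [hvw, hqw]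
  have hn := P.n_ge
  have hr0 := P.r_pos
  have hr1 := P.r_le
  constructor
  · intro v hv
    obtain ⟨k, hk⟩ := G.Λ_triv τ hτ ⟨v, hv⟩
    have h1 : Psi G.Φ u q = Psi G.Φ u (p.1, p.2.1, p.2.2 + 2 * Real.pi * k) := by
      rw [← hpq, hk, ← Psi_rot]
    have h2 := congrArg (fun z : T => z.2.2) (Psi_inj G h1)
    simp only at h2
    have h3 : r / 8 / n ≤ 1 / 32 := by
      rw [div_le_iff₀ (by linarith)]; linarith
    have hk0 : k = 0 := by
      have h4 : |2 * Real.pi * (k : ℝ)| < 1 := by rw [abs_lt]; constructor <;> linarith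
      have h5 : (1 : ℝ) ≤ 2 * Real.pi := by linarith [Real.pi_gt_three]
      rw [abs_mul, abs_of_nonneg (by linarith : (0 : ℝ) ≤ 2 * Real.pi)] at h4
      have h6 : |(k : ℝ)| < 1 := by nlinarith [abs_nonneg (k : ℝ)]
      exact_mod_cast Int.abs_lt_one_iff.mp (by exact_mod_cast h6)
    apply hτ1
    ext1 v'
    rw [hk, hk0]
    simp [rot_zero]
  · refine ⟨p.1, q.1 - p.1, hp1, hp2, abs_le.mpr ⟨by linarith, by linarith⟩, fun x hx => ?_⟩
    have h1 := orbit_close G P hδ hr (p := p) (abs_le.mpr ⟨hp3.le, hp4.le⟩)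
      (abs_le.mpr ⟨hp5.le, hp6.le⟩) hx
    have h2 := orbit_close G P hδ hr (p := q) (abs_le.mpr ⟨hq3.le, hq4.le⟩)
      (abs_le.mpr ⟨hq5.le, hq6.le⟩) hx
    rw [show p.1 + (x - p.1) = x by ring] at h1
    rw [show q.1 + (x - p.1) = x + (q.1 - p.1) by ring, ← hpq, G.Λ_flow τ hτ] at h2
    rw [← dist_base_Λ G hτ, dist_comm] at h1
    linarith [dist_triangle (base (τ (G.Φ x u))) (base (τ (G.Φ (x - p.1) (Psi G.Φ u p))))
      (base (G.Φ (x + (q.1 - p.1)) u))]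

theorem per_of_overlap {u : T} {n r : ℝ} (P : Par G u n r) {ι ε δ : ℝ} (hι : 0 < ι)
    (hΓ : ∀ g ∈ G.Γ, (∃ z : ℍ, dist z (g • z) < ι) → ∀ z : ℍ, g • z = z)
    (h8 : 8 * ε < ι)
    (hδ : ∀ v t y, |t| ≤ δ → |y| ≤ δ → dist (base (Psi G.Φ v (t, y, 0))) (base v) ≤ ε)
    (hr : r ≤ δ)
    (hov : ∀ a : ℤ, ∃ τ ∈ G.Λ, τ ≠ 1 ∧ ¬ Disjoint (τ '' box G u a n r) (box G u a n r)) :
    G.Per u := by
  choose τ hτ hτ1 hov using hov
  have hcl := fun a => overlap_close G P hδ hr (hτ a) (hτ1 a) (hov a)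
  choose hfree t s ht1 ht2 hs hx using hcl
  choose g hg hgb using fun a => G.Λ_base (τ a) (hτ a)
  have hn := P.n_ge
  have hsurj : ∀ z : ℍ, ∃ v : T, base v = z := fun z => ⟨lift z, base_lift z⟩
  have hnt : ∀ a, Nontriv (g a) := by
    intro a
    refine ⟨base u, ?_⟩
    rw [← hgb]
    exact hfree a u
  -- commutation
  have hcomm : ∀ a : ℤ, ∀ z : ℍ, g a • g (a + 1) • z = g (a + 1) • g a • z := by
    intro a
    have hta := ht1 a
    have hta' := ht2 a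
    have htb := ht1 (a + 1)
    have htb' := ht2 (a + 1)
    have hsa := abs_le.mp (hs a)
    have hsb := abs_le.mp (hs (a + 1))
    push_cast at htb htb'
    have e1 : dist (g (a + 1) • base (G.Φ a u)) (base (G.Φ (a + s (a + 1)) u)) ≤ 2 * ε := by
      rw [← hgb]; exact hx (a + 1) a (abs_le.mpr ⟨by linarith, by linarith⟩)
    have e2 : dist (g a • base (G.Φ (a + s (a + 1)) u))
        (base (G.Φ (a + s (a + 1) + s a) u)) ≤ 2 * ε := by
      rw [← hgb]; exact hx a (a + s (a + 1)) (abs_le.mpr ⟨by linarith, by linarith⟩)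
    have e3 : dist (g a • base (G.Φ a u)) (base (G.Φ (a + s a) u)) ≤ 2 * ε := by
      rw [← hgb]; exact hx a a (abs_le.mpr ⟨by linarith, by linarith⟩)
    have e4 : dist (g (a + 1) • base (G.Φ (a + s a) u))
        (base (G.Φ (a + s a + s (a + 1)) u)) ≤ 2 * ε := by
      rw [← hgb]; exact hx (a + 1) (a + s a) (abs_le.mpr ⟨by linarith, by linarith⟩)
    rw [show (a : ℝ) + s a + s (a + 1) = a + s (a + 1) + s a by ring] at e4
    have f1 : dist (g a • g (a + 1) • base (G.Φ a u))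
        (base (G.Φ (a + s (a + 1) + s a) u)) ≤ 4 * ε := by
      have := dist_triangle (g a • g (a + 1) • base (G.Φ a u))
        (g a • base (G.Φ (a + s (a + 1)) u)) (base (G.Φ (a + s (a + 1) + s a) u))
      rw [dist_smul] at this
      linarith
    have f2 : dist (g (a + 1) • g a • base (G.Φ a u))
        (base (G.Φ (a + s (a + 1) + s a) u)) ≤ 4 * ε := by
      have := dist_triangle (g (a + 1) • g a • base (G.Φ a u))
        (g (a + 1) • base (G.Φ (a + s a) u)) (base (G.Φ (a + s (a + 1) + s a) u))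
      rw [dist_smul] at this
      linarith
    have f3 : dist (g (a + 1) • g a • base (G.Φ a u)) (g a • g (a + 1) • base (G.Φ a u)) < ι := by
      have := dist_triangle_right (g (a + 1) • g a • base (G.Φ a u))
        (g a • g (a + 1) • base (G.Φ a u)) (base (G.Φ (a + s (a + 1) + s a) u))
      linarith
    have hmem : (g (a + 1) * g a)⁻¹ * (g a * g (a + 1)) ∈ G.Γ :=
      mul_mem (inv_mem (mul_mem (hg _) (hg _))) (mul_mem (hg _) (hg _))
    have htriv := hΓ _ hmem ⟨base (G.Φ a u), by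
      rw [← dist_smul (g (a + 1) * g a), smul_smul, mul_inv_cancel_left, mul_smul, mul_smul]
      exact f3⟩
    intro z
    have h1 := htriv z
    rw [mul_smul, inv_smul_eq_iff, mul_smul, mul_smul] at h1
    exact h1
  have hC : ∀ a : ℤ, Comm1 G.Γ (g a) (g (a + 1)) := fun a =>
    ⟨hg _, hg _, hnt _, hnt _, hcomm a⟩
  have hC' : ∀ a : ℤ, Comm1 G.Γ (g (a + 1)) (g a) := fun a =>
    ⟨hg _, hg _, hnt _, hnt _, fun z => (hcomm a z).symm⟩
  have hchain : ∀ a : ℤ, Relation.ReflTransGen (Comm1 G.Γ) (g 0) (g a) := by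
    intro a
    induction a using Int.induction_on with
    | zero => exact Relation.ReflTransGen.refl
    | succ m ih => exact ih.tail (hC m)
    | pred m ih =>
      have := hC' (-(m : ℤ) - 1)
      rw [sub_add_cancel] at this
      exact ih.tail this
  -- displacement
  obtain ⟨L1, hL1⟩ := flow_disp G (n / 4)
  obtain ⟨L2, hL2⟩ := axis_bound G.Γ hι hΓ (g 0) (hg 0) (hnt 0) (L1 + 2 * ε)
  have hint : ∀ a : ℤ, dist (base (G.Φ a u)) (g 0 • base (G.Φ a u)) ≤ L2 := by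
    intro a
    refine hL2 (g a) (hchain a) _ ?_
    have hta := ht1 a
    have hta' := ht2 a
    have h1 : dist (g a • base (G.Φ a u)) (base (G.Φ (a + s a) u)) ≤ 2 * ε := by
      rw [← hgb]; exact hx a a (abs_le.mpr ⟨by linarith, by linarith⟩)
    have h2 : dist (base (G.Φ a u)) (base (G.Φ (a + s a) u)) ≤ L1 := by
      rw [show (a : ℝ) + s a = s a + a by ring, G.flow_add]
      exact hL1 _ _ (hs a)
    rw [dist_comm] at h1
    linarith [dist_triangle (base (G.Φ a u)) (base (G.Φ (a + s a) u)) (g a • base (G.Φ a u))]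
  obtain ⟨L3, hL3⟩ := flow_disp G 1
  refine per_of_bounded G (hτ 0) (hfree 0) (L := L3 + L2 + L3) fun x => ?_
  rw [hgb]
  have h1 : dist (base (G.Φ ⌊x⌋ u)) (base (G.Φ x u)) ≤ L3 := by
    have := hL3 (G.Φ ⌊x⌋ u) (x - ⌊x⌋) (by
      rw [abs_of_nonneg (by linarith [Int.floor_le x])]
      linarith [Int.lt_floor_add_one x])
    rwa [← G.flow_add, sub_add_cancel] at this
  have h2 := hint ⌊x⌋
  have h3 : dist (g 0 • base (G.Φ ⌊x⌋ u)) (g 0 • base (G.Φ x u)) ≤ L3 := by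
    rw [dist_smul]; exact h1
  rw [dist_comm] at h1
  linarith [dist_triangle (base (G.Φ x u)) (base (G.Φ ⌊x⌋ u)) (g 0 • base (G.Φ x u)),
    dist_triangle (base (G.Φ ⌊x⌋ u)) (g 0 • base (G.Φ ⌊x⌋ u)) (g 0 • base (G.Φ x u))]

end H54.Flat
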