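import Pool.Agent.H54.Flat.Basic

/-! # Jacobi function estimates and tracking of nearby geodesics (helper54) -/

namespace H54.Flat

open MeasureTheory Set Filter H65.Flat
open scoped ENNReal Topology UpperHalfPlane MatrixGroups

/-! ### `j'' = q j` -/

section Jacobi

variable {j j1 q : ℝ → ℝ} (hj : ∀ y, HasDerivAt j (j1 y) y)
  (hj1 : ∀ y, HasDerivAt j1 (q y * j y) y) (h0 : j 0 = 1) (h10 : j1 0 = 0) (hq : ∀ y, 0 ≤ q y)

include hj hj1 hq in
theorem jj1_mono : Monotone fun y => j y * j1 y := by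
  have hd : ∀ y, HasDerivAt (fun y => j y * j1 y) (j1 y * j1 y + j y * (q y * j y)) y :=
    fun y => (hj y).mul (hj1 y)
  refine monotone_of_deriv_nonneg (fun y => (hd y).differentiableAt) fun y => ?_
  rw [(hd y).deriv]
  nlinarith [mul_self_nonneg (j1 y), mul_nonneg (hq y) (mul_self_nonneg (j y))]

include hj hj1 h10 hq in
theorem jj1_nonneg {y : ℝ} (hy : 0 ≤ y) : 0 ≤ j y * j1 y := by
  have := jj1_mono hj hj1 hq hy
  simpa [h10] using this

include hj hj1 h10 hq in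
theorem jj1_nonpos {y : ℝ} (hy : y ≤ 0) : j y * j1 y ≤ 0 := by
  have := jj1_mono hj hj1 hq hy
  simpa [h10] using this

include hj hj1 h0 h10 hq in
theorem j_sq_ge (y : ℝ) : 1 ≤ j y * j y := by
  have hd : ∀ y, HasDerivAt (fun y => j y * j y) (j1 y * j y + j y * j1 y) y :=
    fun y => (hj y).mul (hj y)
  have hc : Continuous fun y => j y * j y :=
    continuous_iff_continuousAt.mpr fun y => (hd y).continuousAt
  rcases le_total 0 y with hy | hy
  · have hm : MonotoneOn (fun y => j y * j y) (Ici 0) := by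
      refine monotoneOn_of_deriv_nonneg (convex_Ici 0) hc.continuousOn
        (fun y _ => (hd y).differentiableAt.differentiableWithinAt) fun y hy => ?_
      rw [interior_Ici, mem_Ioi] at hy
      rw [(hd y).deriv]
      have := jj1_nonneg hj hj1 h10 hq hy.le
      linarith
    have := hm (mem_Ici.mpr le_rfl) (mem_Ici.mpr hy) hy
    simpa [h0] using this
  · have hm : AntitoneOn (fun y => j y * j y) (Iic 0) := by
      refine antitoneOn_of_deriv_nonpos (convex_Iic 0) hc.continuousOn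
        (fun y _ => (hd y).differentiableAt.differentiableWithinAt) fun y hy => ?_
      rw [interior_Iic, mem_Iio] at hy
      rw [(hd y).deriv]
      have := jj1_nonpos hj hj1 h10 hq hy.le
      linarith
    have := hm (mem_Iic.mpr hy) (mem_Iic.mpr le_rfl) hy
    simpa [h0] using this

include hj hj1 h0 h10 hq in
theorem j_ge_one (y : ℝ) : 1 ≤ j y := by
  have hc : Continuous j := continuous_iff_continuousAt.mpr fun y => (hj y).continuousAt
  have hsq := j_sq_ge hj hj1 h0 h10 hq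
  by_contra hlt
  push Not at hlt
  have hneg : j y ≤ 0 := by
    by_contra hpos
    push Not at hpos
    nlinarith [hsq y]
  obtain ⟨z, -, hz⟩ := intermediate_value_uIcc (a := y) (b := 0) hc.continuousOn
    (show (0 : ℝ) ∈ uIcc (j y) (j 0) by
      rw [h0, uIcc_of_le (by linarith)]; exact ⟨hneg, zero_le_one⟩)
  have := hsq z
  rw [hz] at this
  linarith

include hj hj1 h0 h10 hq in
theorem j1_sign {y : ℝ} : 0 ≤ y * j1 y := by
  have h1 := j_ge_one hj hj1 h0 h10 hq y
  rcases le_total 0 y with hy | hy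
  · have := jj1_nonneg hj hj1 h10 hq hy
    have : 0 ≤ j1 y := by
      by_contra h
      push Not at h
      nlinarith
    positivity
  · have := jj1_nonpos hj hj1 h10 hq hy
    have : j1 y ≤ 0 := by
      by_contra h
      push Not at h
      nlinarith
    nlinarith

include hj hj1 h0 h10 hq in
/-- `|j'/j| ≤ κ |y|` where `q ≤ κ` -/
theorem j1_div_le {κ R : ℝ} (hκ : ∀ y, |y| ≤ R → q y ≤ κ) (hκ0 : 0 ≤ κ) {y : ℝ}
    (hy : |y| ≤ R) : |j1 y / j y| ≤ κ * |y| := by
  have hjy := j_ge_one hj hj1 h0 h10 hq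
  have hd : ∀ y, HasDerivAt (fun y => κ * y * j y - j1 y)
      ((κ - q y) * j y + κ * (y * j1 y)) y := by
    intro y
    have h := ((((hasDerivAt_id' y).const_mul κ).mul (hj y)).sub (hj1 y))
    refine h.congr_deriv ?_
    ring
  have hc : Continuous fun y => κ * y * j y - j1 y :=
    continuous_iff_continuousAt.mpr fun y => (hd y).continuousAt
  have hm : MonotoneOn (fun y => κ * y * j y - j1 y) (Icc (-R) R) := by
    refine monotoneOn_of_deriv_nonneg (convex_Icc _ _) hc.continuousOn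
      (fun y _ => (hd y).differentiableAt.differentiableWithinAt) fun y hy => ?_
    rw [interior_Icc] at hy
    rw [(hd y).deriv]
    have h1 := hκ y (abs_le.mpr ⟨hy.1.le, hy.2.le⟩)
    have h2 := j1_sign hj hj1 h0 h10 hq (y := y)
    have h3 := hjy y
    have : 0 ≤ (κ - q y) * j y := mul_nonneg (by linarith) (by linarith)
    positivity
  have hR : 0 ≤ R := (abs_nonneg y).trans hy
  have h0m : (0 : ℝ) ∈ Icc (-R) R := ⟨by linarith, hR⟩
  have hym : y ∈ Icc (-R) R := abs_le.mp hy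
  have hjpos : 0 < j y := by linarith [hjy y]
  have hs := j1_sign hj hj1 h0 h10 hq (y := y)
  rw [abs_div, abs_of_pos hjpos, div_le_iff₀ hjpos]
  rcases le_total 0 y with h | h
  · have hh := hm h0m hym h
    simp only [mul_zero, zero_mul, h10, sub_zero] at hh
    have hj1nn : 0 ≤ j1 y := by
      rcases h.eq_or_lt with h' | h'
      · rw [← h', h10]
      · exact nonneg_of_mul_nonneg_right (by linarith [hs]) h'
    rw [abs_of_nonneg h, abs_of_nonneg hj1nn]
    linarith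
  · have hh := hm hym h0m h
    simp only [mul_zero, zero_mul, h10, sub_zero] at hh
    have hj1np : j1 y ≤ 0 := by
      rcases h.eq_or_lt with h' | h'
      · rw [h', h10]
      · by_contra hp
        push Not at hp
        nlinarith
    rw [abs_of_nonpos h, abs_of_nonpos hj1np]
    linarith

include hj hj1 h0 h10 hq in
/-- `1 - 1/j ≤ κ R |y|` where `q ≤ κ` on `|y| ≤ R` -/
theorem inv_j_le {κ R : ℝ} (hκ : ∀ y, |y| ≤ R → q y ≤ κ) (hκ0 : 0 ≤ κ) {y : ℝ}
    (hy : |y| ≤ R) : |(j y)⁻¹ - 1| ≤ κ * R * |y| := by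
  have hjy := j_ge_one hj hj1 h0 h10 hq
  have hR : 0 ≤ R := (abs_nonneg y).trans hy
  have hd : ∀ x ∈ Icc (-R) R, HasDerivWithinAt (fun y => (j y)⁻¹) (-j1 x / j x ^ 2) (Icc (-R) R) x :=
    fun x _ => ((hj x).inv (by linarith [hjy x])).hasDerivWithinAt
  have hb : ∀ x ∈ Icc (-R) R, ‖-j1 x / j x ^ 2‖ ≤ κ * R := by
    intro x hx
    have h1 := j1_div_le hj hj1 h0 h10 hq hκ hκ0 (abs_le.mpr hx)
    have h2 := hjy x
    have h3 : |x| ≤ R := abs_le.mpr hx
    rw [Real.norm_eq_abs, show -j1 x / j x ^ 2 = -(j1 x / j x) * (j x)⁻¹ by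
      field_simp, abs_mul, abs_neg]
    have h4 : |(j x)⁻¹| ≤ 1 := by
      rw [abs_of_pos (by positivity)]
      exact inv_le_one_of_one_le₀ h2
    calc |j1 x / j x| * |(j x)⁻¹| ≤ (κ * |x|) * 1 :=
          mul_le_mul h1 h4 (abs_nonneg _) (by positivity)
      _ ≤ κ * R := by rw [mul_one]; exact mul_le_mul_of_nonneg_left h3 hκ0
  have := (convex_Icc (-R) R).norm_image_sub_le_of_norm_hasDerivWithin_le hd hb
    (x := 0) (y := y) ⟨by linarith, hR⟩ (abs_le.mp hy)
  simpa [h0, Real.norm_eq_abs] using this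

end Jacobi

/-! ### first exit time -/

theorem first_exit {f : ℝ → ℝ} (hf : Continuous f) {c s1 : ℝ} (h0 : f 0 < c) (hs1 : 0 ≤ s1)
    (hc : c ≤ f s1) : ∃ s ∈ Icc 0 s1, f s = c ∧ ∀ x ∈ Icc 0 s, f x ≤ c := by
  have hS : IsCompact {s | s ∈ Icc 0 s1 ∧ c ≤ f s} := by
    have : {s | s ∈ Icc 0 s1 ∧ c ≤ f s} = Icc 0 s1 ∩ {s | c ≤ f s} := rfl
    rw [this]
    exact isCompact_Icc.inter_right (isClosed_le continuous_const hf)
  obtain ⟨s, hs, hmin⟩ := hS.exists_isLeast ⟨s1, ⟨hs1, le_rfl⟩, hc⟩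
  have hlt : ∀ x ∈ Icc 0 s, x < s → f x < c := by
    intro x hx hxs
    by_contra h
    push Not at h
    have := hmin ⟨⟨hx.1, hxs.le.trans hs.1.2⟩, h⟩
    linarith
  have hle : f s ≤ c := by
    obtain ⟨x, hx, hxc⟩ := intermediate_value_Icc hs.1.1 hf.continuousOn
      (show c ∈ Icc (f 0) (f s) from ⟨h0.le, hs.2⟩)
    rcases hx.2.eq_or_lt with h | h
    · rw [← h, hxc]
    · exact absurd hxc (hlt x hx h).ne
  have heq : f s = c := le_antisymm hle hs.2
  refine ⟨s, hs.1, heq, fun x hx => ?_⟩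
  rcases hx.2.eq_or_lt with h | h
  · rw [h, heq]
  · exact (hlt x hx h).le

/-- mean value bound on `[0,s]` -/
theorem mv_bound {f f' : ℝ → ℝ} (hf : ∀ s, HasDerivAt f (f' s) s) {C s : ℝ} (hs : 0 ≤ s)
    (hb : ∀ x ∈ Icc 0 s, |f' x| ≤ C) : |f s - f 0| ≤ C * s := by
  have := (convex_Icc 0 s).norm_image_sub_le_of_norm_hasDerivWithin_le
    (fun x _ => (hf x).hasDerivWithinAt) (fun x hx => by
      rw [Real.norm_eq_abs]; exact hb x hx) (x := 0) (y := s) ⟨le_rfl, hs⟩ ⟨hs, le_rfl⟩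
  simpa [Real.norm_eq_abs, abs_of_nonneg hs] using this

/-- tracking, forward in time -/
theorem track {y φ y' φ' : ℝ → ℝ} (hy : ∀ s, HasDerivAt y (y' s) s)
    (hφ : ∀ s, HasDerivAt φ (φ' s) s) (hy' : ∀ s, |y' s| ≤ |φ s|) {κ R n a b : ℝ}
    (hφ' : ∀ s, |y s| ≤ R → |φ' s| ≤ κ * R) (hκ : 0 ≤ κ) (hR : 0 < R)
    (ha : |y 0| ≤ a) (hb : |φ 0| ≤ b)
    (hlt : a + (b + κ * R * n) * n < R) (hn : 0 ≤ n) {s : ℝ} (hs : 0 ≤ s) (hsn : s ≤ n) :
    |y s| ≤ R ∧ |φ s| ≤ b + κ * R * n := by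
  have hκR : 0 ≤ κ * R := by positivity
  have hb0 : 0 ≤ b := (abs_nonneg _).trans hb
  have hyc : Continuous fun s => |y s| :=
    (continuous_iff_continuousAt.mpr fun s => (hy s).continuousAt).abs
  have hφb : ∀ s, 0 ≤ s → s ≤ n → (∀ x ∈ Icc 0 s, |y x| ≤ R) → |φ s| ≤ b + κ * R * n := by
    intro s hs hsn hx
    have h1 := mv_bound hφ hs (fun x hx' => hφ' x (hx x hx'))
    have h2 : κ * R * s ≤ κ * R * n := mul_le_mul_of_nonneg_left hsn hκR
    have h3 : |φ s| ≤ |φ s - φ 0| + |φ 0| := by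
      have := abs_add_le (φ s - φ 0) (φ 0)
      simpa using this
    linarith
  have hall : ∀ s, 0 ≤ s → s ≤ n → |y s| < R := by
    intro s hs hsn
    by_contra hcon
    push Not at hcon
    have hy0 : |y 0| < R := by nlinarith [mul_nonneg hκR hn, mul_nonneg (mul_nonneg hκR hn) hn]
    obtain ⟨x, hx, hxR, hxall⟩ := first_exit hyc hy0 hs hcon
    have h1 := mv_bound hy hx.1 (C := b + κ * R * n) (fun z hz => (hy' z).trans
      (hφb z hz.1 (hz.2.trans (hx.2.trans hsn)) fun w hw => hxall w ⟨hw.1, hw.2.trans hz.2⟩))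
    have h2 : |y x| ≤ |y x - y 0| + |y 0| := by
      have := abs_add_le (y x - y 0) (y 0)
      simpa using this
    have h3 : (b + κ * R * n) * x ≤ (b + κ * R * n) * n :=
      mul_le_mul_of_nonneg_left (hx.2.trans hsn) (by positivity)
    linarith
  exact ⟨(hall s hs hsn).le, hφb s hs hsn fun x hx => (hall x hx.1 (hx.2.trans hsn)).le⟩

variable (G : Geo)

section

variable (u : T)

theorem Gc_deriv (t y : ℝ) : HasDerivAt (G.Gc u t) (G.Gc1 u t y) y := G.J_deriv _ y

theorem Gc1_deriv (t y : ℝ) :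
    HasDerivAt (G.Gc1 u t) (-G.Kc u t y * G.Gc u t y) y := by
  have := G.J1_deriv (rot (Real.pi / 2) (G.Φ t u)) y
  rw [K_line] at this
  exact this

theorem Kc_nonpos (t y : ℝ) : G.Kc u t y ≤ 0 := G.K_nonpos _

theorem Gc_zero (t : ℝ) : G.Gc u t 0 = 1 := G.J_zero _

theorem Gc1_zero (t : ℝ) : G.Gc1 u t 0 = 0 := G.J1_zero _

theorem Gc_ge_one (t y : ℝ) : 1 ≤ G.Gc u t y :=
  j_ge_one (Gc_deriv G u t) (Gc1_deriv G u t) (Gc_zero G u t) (Gc1_zero G u t)
    (fun y => by linarith [Kc_nonpos G u t y]) y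

theorem Gc1_div_le {κ R : ℝ} (hκ : ∀ t y, |y| ≤ R → -G.Kc u t y ≤ κ) (hκ0 : 0 ≤ κ) {t y : ℝ}
    (hy : |y| ≤ R) : |G.Gc1 u t y / G.Gc u t y| ≤ κ * |y| :=
  j1_div_le (Gc_deriv G u t) (Gc1_deriv G u t) (Gc_zero G u t) (Gc1_zero G u t)
    (fun y => by linarith [Kc_nonpos G u t y]) (hκ t) hκ0 hy

theorem inv_Gc_le {κ R : ℝ} (hκ : ∀ t y, |y| ≤ R → -G.Kc u t y ≤ κ) (hκ0 : 0 ≤ κ) {t y : ℝ}
    (hy : |y| ≤ R) : |(G.Gc u t y)⁻¹ - 1| ≤ κ * R * |y| :=
  inv_j_le (Gc_deriv G u t) (Gc1_deriv G u t) (Gc_zero G u t) (Gc1_zero G u t)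
    (fun y => by linarith [Kc_nonpos G u t y]) (hκ t) hκ0 hy

end

/-- The parameters of the tracking argument: `-K ≤ 1/(2 n³)` on the strip `|y| ≤ r`. -/
structure Par (u : T) (n r : ℝ) : Prop where
  n_ge : 4 ≤ n
  r_pos : 0 < r
  r_le : r ≤ 1
  hK : ∀ t y, |y| ≤ r → -G.Kc u t y ≤ (2 * n ^ 3)⁻¹

/-- tracking of orbits starting in the small box -/
theorem chart_track {u : T} {n r : ℝ} (P : Par G u n r) {p : T} (hy : |p.2.1| ≤ r / 8)
    (hφ : |p.2.2| ≤ r / 8 / n) : ∃ t y φ : ℝ → ℝ, t 0 = p.1 ∧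
    (∀ s, G.Φ s (Psi G.Φ u p) = Psi G.Φ u (t s, y s, φ s)) ∧
    ∀ s, |s| ≤ n → |y s| ≤ r / 2 ∧ |t s - p.1 - s| ≤ r := by
  obtain ⟨t, y, φ, ht0, hy0, hφ0, hsol, hall⟩ := G.chart_sol u p
  refine ⟨t, y, φ, ht0, hall, ?_⟩
  have hn := P.n_ge
  have hn0 : 0 < n := by linarith
  have hr := P.r_pos
  set κ : ℝ := (2 * n ^ 3)⁻¹ with hκ
  have hκ0 : 0 ≤ κ := by positivity
  have hK2 : ∀ t y, |y| ≤ r / 2 → -G.Kc u t y ≤ κ := fun t y h => P.hK t y (by linarith)
  have hκn : κ * n * n * n = 1 / 2 := by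
    rw [hκ]; field_simp
  have hderφ : ∀ s, |y s| ≤ r / 2 →
      |G.Gc1 u (t s) (y s) / G.Gc u (t s) (y s) * Real.cos (φ s)| ≤ κ * (r / 2) := by
    intro s hs
    rw [abs_mul]
    calc _ ≤ (κ * |y s|) * 1 := mul_le_mul (Gc1_div_le G u hK2 hκ0 hs)
          (Real.abs_cos_le_one _) (abs_nonneg _) (by positivity)
      _ ≤ κ * (r / 2) := by rw [mul_one]; exact mul_le_mul_of_nonneg_left hs hκ0
  have hlt : r / 8 + (r / 8 / n + κ * (r / 2) * n) * n < r / 2 := by
    have h1 : r / 8 / n * n = r / 8 := by field_simp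
    have h2 : κ * (r / 2) * n * n ≤ r / 16 := by
      have : κ * n * n ≤ 1 / 8 := by
        have h3 : κ * n * n * 4 ≤ κ * n * n * n := mul_le_mul_of_nonneg_left hn (by positivity)
        linarith
      calc κ * (r / 2) * n * n = (κ * n * n) * (r / 2) := by ring
        _ ≤ 1 / 8 * (r / 2) := mul_le_mul_of_nonneg_right this (by positivity)
        _ = r / 16 := by ring
    nlinarith
  -- both directions of time
  have key : ∀ σ : ℝ, σ = 1 ∨ σ = -1 → ∀ s, 0 ≤ s → s ≤ n → |y (σ * s)| ≤ r / 2 ∧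
      |φ (σ * s)| ≤ r / 8 / n + κ * (r / 2) * n := by
    intro σ hσ s hs hsn
    have hσ1 : |σ| = 1 := by rcases hσ with rfl | rfl <;> simp
    have hlin : ∀ s, HasDerivAt (fun s => σ * s) σ s := fun s => by
      simpa using (hasDerivAt_id s).const_mul σ
    refine track (y := fun s => y (σ * s)) (φ := fun s => φ (σ * s))
      (y' := fun s => Real.sin (φ (σ * s)) * σ)
      (φ' := fun s => G.Gc1 u (t (σ * s)) (y (σ * s)) / G.Gc u (t (σ * s)) (y (σ * s)) *
        Real.cos (φ (σ * s)) * σ)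
      (fun s => ((hsol (σ * s)).2.1).comp s (hlin s)) (fun s => ((hsol (σ * s)).2.2).comp s (hlin s))
      (fun s => ?_) (R := r / 2) (κ := κ) (a := r / 8) (b := r / 8 / n) (fun s h => ?_) hκ0
      (by positivity) ?_ ?_ hlt hn0.le hs hsn
    · rw [abs_mul, hσ1, mul_one]; exact Real.abs_sin_le_abs
    · rw [abs_mul, hσ1, mul_one]; exact hderφ _ h
    · simpa [hy0] using hy
    · simpa [hφ0] using hφ
  have key' : ∀ s, |s| ≤ n → |y s| ≤ r / 2 ∧ |φ s| ≤ r / 8 / n + κ * (r / 2) * n := by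
    intro s hs
    rcases le_total 0 s with h | h
    · have := key 1 (Or.inl rfl) s h (by rwa [abs_of_nonneg h] at hs)
      simpa using this
    · have := key (-1) (Or.inr rfl) (-s) (by linarith) (by rwa [abs_of_nonpos h] at hs)
      simpa using this
  have hφ2 : ∀ s, |s| ≤ n → |φ s| ≤ r / 4 / n := by
    intro s hs
    refine (key' s hs).2.trans ?_
    have h1 : κ * (r / 2) * n ≤ r / 8 / n := by
      rw [le_div_iff₀ hn0]
      have : κ * n * n ≤ 1 / 8 := by
        have h3 : κ * n * n * 4 ≤ κ * n * n * n := mul_le_mul_of_nonneg_left hn (by positivity)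
        linarith
      calc κ * (r / 2) * n * n = (κ * n * n) * (r / 2) := by ring
        _ ≤ 1 / 8 * (r / 2) := mul_le_mul_of_nonneg_right this (by positivity)
        _ ≤ r / 8 := by linarith
    have h2 : r / 4 / n = r / 8 / n + r / 8 / n := by ring
    linarith
  -- the `t` coordinate
  have hder : ∀ s, |s| ≤ n → |Real.cos (φ s) / G.Gc u (t s) (y s) - 1| ≤ r / n := by
    intro s hs
    have h1 := (key' s hs).1
    have h2 := hφ2 s hs
    have h3 := inv_Gc_le G u hK2 hκ0 (t := t s) h1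
    have h4 : |Real.cos (φ s) - 1| ≤ φ s ^ 2 / 2 := by
      rw [abs_sub_comm, abs_of_nonneg (by linarith [Real.cos_le_one (φ s)])]
      linarith [Real.one_sub_sq_div_two_le_cos (x := φ s)]
    have h5 : |(G.Gc u (t s) (y s))⁻¹| ≤ 1 := by
      have := Gc_ge_one G u (t s) (y s)
      rw [abs_of_pos (by positivity)]
      exact inv_le_one_of_one_le₀ this
    have h6 : |Real.cos (φ s) / G.Gc u (t s) (y s) - 1| ≤
        |Real.cos (φ s) - 1| * |(G.Gc u (t s) (y s))⁻¹| + |(G.Gc u (t s) (y s))⁻¹ - 1| := by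
      rw [← abs_mul]
      refine le_trans (le_of_eq ?_) (abs_add_le _ _)
      congr 1
      rw [div_eq_mul_inv]; ring
    have h7 : φ s ^ 2 ≤ (r / 4 / n) ^ 2 := by
      rw [← sq_abs (φ s)]
      exact pow_le_pow_left₀ (abs_nonneg _) h2 2
    have h8 : (r / 4 / n) ^ 2 ≤ r / n / 4 := by
      have : r / n ≤ 1 := by rw [div_le_one hn0]; linarith [P.r_le]
      have hrn : 0 ≤ r / n := by positivity
      have : (r / 4 / n) ^ 2 = (r / n) * (r / n) / 16 := by ring
      rw [this]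
      nlinarith
    have h9 : κ * (r / 2) * |y s| ≤ r / n / 4 := by
      have h10 : κ ≤ 1 / n := by
        rw [hκ, one_div]
        apply inv_anti₀ hn0
        have : 1 ≤ n ^ 2 := by nlinarith
        calc n = n * 1 := (mul_one n).symm
          _ ≤ n * n ^ 2 := mul_le_mul_of_nonneg_left this hn0.le
          _ ≤ 2 * n ^ 3 := by nlinarith [pow_pos hn0 3]
      have h11 : |y s| ≤ 1 / 2 := h1.trans (by linarith [P.r_le])
      calc κ * (r / 2) * |y s| ≤ (1 / n) * (r / 2) * (1 / 2) := by gcongr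
        _ = r / n / 4 := by ring
    calc _ ≤ _ := h6
      _ ≤ (φ s ^ 2 / 2) * 1 + κ * (r / 2) * |y s| :=
          add_le_add (mul_le_mul h4 h5 (abs_nonneg _) (by positivity)) h3
      _ ≤ r / n := by
        have : 0 ≤ r / n := by positivity
        linarith
  intro s hs
  refine ⟨(key' s hs).1, ?_⟩
  have htd : ∀ s, HasDerivAt (fun s => t s - s) (Real.cos (φ s) / G.Gc u (t s) (y s) - 1) s :=
    fun s => ((hsol s).1).sub (hasDerivAt_id s)
  have hmv := (convex_Icc (-n) n).norm_image_sub_le_of_norm_hasDerivWithin_le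
    (fun x _ => (htd x).hasDerivWithinAt) (C := r / n) (fun x hx => by
      rw [Real.norm_eq_abs]; exact hder x (abs_le.mpr hx)) (x := 0) (y := s)
    ⟨by linarith, hn0.le⟩ (abs_le.mp hs)
  simp only [Real.norm_eq_abs, ht0, sub_zero] at hmv
  have : r / n * |s| ≤ r := by
    calc r / n * |s| ≤ r / n * n := mul_le_mul_of_nonneg_left hs (by positivity)
      _ = r := by field_simp
  calc |t s - p.1 - s| = |t s - s - p.1| := by congr 1; ring
    _ ≤ _ := hmv
    _ ≤ r := this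

/-- the tube condition for vectors of the small box -/
theorem tube_box {u : T} {n r : ℝ} (P : Par G u n r) {p : T} (hy : |p.2.1| ≤ r / 8)
    (hφ : |p.2.2| ≤ r / 8 / n) : G.Tube (Psi G.Φ u p) n (r / 2) := by
  obtain ⟨t, y, φ, -, hall, hb⟩ := chart_track G P hy hφ
  intro τ η hτ hη
  have hn0 : 0 < n := by linarith [P.n_ge]
  -- the transversal geodesic
  have h1 : rot (Real.pi / 2) (G.Φ τ (Psi G.Φ u p)) =
      Psi G.Φ u (t τ, y τ, φ τ + Real.pi / 2) := by
    rw [hall, Psi_rot]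
  obtain ⟨t', y', φ', ht0, hy0, hφ0, hsol, hall'⟩ :=
    G.chart_sol u (t τ, y τ, φ τ + Real.pi / 2)
  have h2 : G.Kc (Psi G.Φ u p) τ η = G.Kc u (t' η) (y' η) := by
    rw [← K_line, h1, hall', K_Psi]
  rw [h2]
  have h3 : |y' η - y τ| ≤ |η| := by
    have := Convex.norm_image_sub_le_of_norm_hasDerivWithin_le (f := y')
      (f' := fun s => Real.sin (φ' s)) (s := univ) (C := 1) (x := 0) (y := η)
      (fun x _ => ((hsol x).2.1).hasDerivWithinAt) (fun x _ => by
        rw [Real.norm_eq_abs]; exact Real.abs_sin_le_one _) convex_univ (mem_univ _) (mem_univ _)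
    simpa [Real.norm_eq_abs, hy0] using this
  have h4 : |y' η| ≤ r := by
    have h5 : |y' η| ≤ |y' η - y τ| + |y τ| := by
      have := abs_add_le (y' η - y τ) (y τ)
      simpa using this
    linarith [(hb τ hτ).1]
  have h6 := P.hK (t' η) (y' η) h4
  have h7 : (2 * n ^ 3)⁻¹ < (n ^ 3)⁻¹ := by
    apply inv_strictAnti₀ (by positivity)
    have := pow_pos hn0 3
    linarith
  linarith

end H54.Flat
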